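import Pool.Agent.Q294.BRW.Card

/-!
# Irreducible branching random walks with finitely many fixed points
-/

namespace Pool.Agent.Results.MP_087ef2_pr.FiniteFixed

open Q294.Branch

/-- For every irreducible branching random walk whose generating function has finitely many fixed
points, every fixed point is an extinction probability vector; in fact the only fixed points are the
vector of the global extinction probabilities and the vector `1`. -/
theorem result {X : Type*} [Countable X] (b : BRW X) (hb : b.Irreducible) (hF : b.FG.Finite) :
    b.FG = b.EG ∧ b.EG = {fun x => b.q x Set.univ, fun _ => 1} := by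
  have hqu : b.qbar = fun x => b.q x Set.univ := BRW.qbar_eq_q
  have h1 : b.FG = {b.qbar, fun _ => 1} := by
    rcases BRW.FG_dichotomy hb with h | h
    · exact h
    · exfalso
      have h2 : Cardinal.mk b.FG < Cardinal.aleph0 := hF.lt_aleph0
      rw [h] at h2
      exact absurd h2 (not_lt.2 Cardinal.aleph0_le_continuum)
  have h3 : b.EG = {b.qbar, fun _ => 1} := by
    apply Set.Subset.antisymm
    · rw [← h1]; exact b.EG_subset_FG
    · rintro z (rfl | rfl)
      · exact b.qbar_mem_EG
      · exact b.one_mem_EG
  exact ⟨h1.trans h3.symm, by rw [h3, hqu]⟩

end Pool.Agent.Results.MP_087ef2_pr.FiniteFixed
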